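import Pool.Agent.L0h32.CX.Stm
import Pool.Agent.H630R2.LA.Upper

/-!
# Project CX: UPP, the upper bound for the complement (from CARD, SND, CMP)
-/

set_option autoImplicit false
set_option linter.all false

namespace Pool.Agent.L0h66.CX

open Relation
open Pool.Agent.L0h32.CX
open Pool.Agent.H630R2.LA (LimAut Sym fz Fr Cfg Step init initTape WS lrel bitS ix nr Ann keep
  finite_WS path link bit_ann card_WS card_Sym finite_Sym ext nstep nreach mem_language card_table)

section size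

variable {A : Type}

/-- The number of transitions of any machine. -/
theorem numTrans_le_all (M : LimAut A) :
    M.numTrans ≤ Nat.card M.Q * ((Nat.card M.W + 2) * (Nat.card M.Q * (Nat.card M.W * 2))) := by
  have := M.finQ
  have := M.finW
  have := finite_Sym M.W
  have h1 : Nat.card (M.Q × Sym M.W × M.Q × M.W × Bool) =
      Nat.card M.Q * ((Nat.card M.W + 2) * (Nat.card M.Q * (Nat.card M.W * 2))) := by
    rw [Nat.card_prod, Nat.card_prod, Nat.card_prod, Nat.card_prod, card_Sym]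
    simp
  rw [← h1]
  unfold LimAut.numTrans
  rw [← Set.ncard_univ]
  exact Set.ncard_le_ncard (Set.subset_univ _) Set.finite_univ

theorem size_pos' (M : LimAut A) : 4 ≤ M.size ∧ Nat.card M.Q + Nat.card A + 3 ≤ M.size ∧
    1 ≤ Nat.card M.Q := by
  have := M.finQ
  have hq1 : 1 ≤ Nat.card M.Q := by
    have : Nonempty M.Q := ⟨M.q0⟩
    exact Nat.card_pos
  unfold LimAut.size
  omega

/-- A generic bound for the size. -/
theorem size_le_all [Finite A] (M : LimAut A) (hW : Nat.card M.W = 3 * Nat.card A + 1) :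
    M.size ≤ 2 ^ 7 * (Nat.card M.Q ^ 2 * (Nat.card A + 1) ^ 2) := by
  have hf := M.finQ
  have h1 := numTrans_le_all M
  have h2 : M.F.ncard ≤ Nat.card M.Q := by
    rw [← Set.ncard_univ]
    exact Set.ncard_le_ncard (Set.subset_univ _) Set.finite_univ
  have h3 := (size_pos' M).2.2
  unfold LimAut.size
  rw [hW] at h1 ⊢
  generalize M.numTrans = T at *
  generalize M.F.ncard = F at *
  generalize Nat.card M.Q = q at *
  generalize Nat.card A = a at *
  have h4 : q * ((3 * a + 1 + 2) * (q * ((3 * a + 1) * 2))) ≤ 18 * (q ^ 2 * (a + 1) ^ 2) := by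
    have h5 : (3 * a + 1) ≤ 3 * (a + 1) := by omega
    calc q * ((3 * a + 1 + 2) * (q * ((3 * a + 1) * 2)))
        = q ^ 2 * (3 * (a + 1)) * 2 * (3 * a + 1) := by ring
      _ ≤ q ^ 2 * (3 * (a + 1)) * 2 * (3 * (a + 1)) := Nat.mul_le_mul_left _ h5
      _ = 18 * (q ^ 2 * (a + 1) ^ 2) := by ring
  have h6 : q ≤ q ^ 2 * (a + 1) ^ 2 := by
    have : 1 ≤ (a + 1) ^ 2 := Nat.one_le_pow _ _ (by omega)
    calc q ≤ q ^ 2 := Nat.le_self_pow (by omega) q
      _ ≤ q ^ 2 * (a + 1) ^ 2 := Nat.le_mul_of_pos_right _ this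
  have h7 : a + 1 ≤ q ^ 2 * (a + 1) ^ 2 := by
    have : 1 ≤ q ^ 2 := Nat.one_le_pow _ _ (by omega)
    calc a + 1 ≤ (a + 1) ^ 2 := Nat.le_self_pow (by omega) _
      _ ≤ q ^ 2 * (a + 1) ^ 2 := Nat.le_mul_of_pos_left _ this
  generalize q ^ 2 * (a + 1) ^ 2 = X at *
  generalize q * ((3 * a + 1 + 2) * (q * ((3 * a + 1) * 2))) = Y at *
  omega

end size

section convert

variable {A : Type} {strict : Prop} {M : LimAut A}

open Classical in
/-- The table automaton as a one-way automaton on `2 ^ h` states. -/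
theorem exists_nfa (M : LimAut A) (strict : Prop) {h : ℕ}
    (hcard : Nat.card (Set (M.Q × M.Q) × M.Q) ≤ 2 ^ h) :
    ∃ (rel : A → Fin (2 ^ h) → Fin (2 ^ h) → Bool) (p0 : Fin (2 ^ h)) (facc : Fin (2 ^ h) → Bool),
      ∀ w : List A, w ∈ M.language strict ↔ ∃ f, facc f = true ∧ nr h rel p0 w w.length f := by
  have := M.finQ
  obtain ⟨e⟩ : Nonempty (Set (M.Q × M.Q) × M.Q ↪ Fin (2 ^ h)) := by
    have e1 := Finite.equivFin (Set (M.Q × M.Q) × M.Q)
    exact ⟨e1.toEmbedding.trans (Fin.castLEEmb hcard)⟩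
  let rel : A → Fin (2 ^ h) → Fin (2 ^ h) → Bool := fun a i j =>
    decide (∃ x y, e x = i ∧ e y = j ∧ nstep strict M (.sym (M.inp a)) x y)
  let p0 : Fin (2 ^ h) := e (ext strict M ∅ .lm, M.q0)
  let facc : Fin (2 ^ h) → Bool := fun i =>
    decide (∃ x y, e x = i ∧ nstep strict M .rm x y ∧ y.2 ∈ M.F)
  refine ⟨rel, p0, facc, fun w => ?_⟩
  rw [mem_language]
  have key : ∀ t, t ≤ w.length → ∀ i, nr h rel p0 w t i ↔
      ∃ x, e x = i ∧ nreach strict M (initTape M w) t x := by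
    intro t
    induction t with
    | zero =>
      intro _ i
      constructor
      · intro hi
        have hi' : i = p0 := hi
        subst hi'
        exact ⟨_, rfl, rfl⟩
      · rintro ⟨x, rfl, hx⟩
        have hx' : x = (ext strict M ∅ .lm, M.q0) := hx
        rw [hx']
        rfl
    | succ t ih =>
      intro ht i
      have hwt : w[t]? = some w[t] := List.getElem?_eq_getElem (by omega)
      have hcell : initTape M w (t + 1) = .sym (M.inp w[t]) := by
        simp only [initTape, hwt]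
      constructor
      · rintro ⟨p, hp, a, ha, hr⟩
        rw [hwt] at ha
        cases ha
        obtain ⟨x, hx1, hx2⟩ := (ih (by omega) p).1 hp
        have hr' := of_decide_eq_true hr
        obtain ⟨x', y, hx', hy, hs⟩ := hr'
        have : x' = x := e.injective (by rw [hx', hx1])
        subst this
        refine ⟨y, hy, x', hx2, ?_⟩
        rw [hcell]
        exact hs
      · rintro ⟨y, hy, x, hx, hs⟩
        refine ⟨e x, (ih (by omega) _).2 ⟨x, rfl, hx⟩, w[t], hwt, ?_⟩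
        rw [hcell] at hs
        exact decide_eq_true ⟨x, y, rfl, hy, hs⟩
  have hlast : initTape M w (w.length + 1) = .rm := by
    simp only [initTape, List.getElem?_eq_none (le_refl w.length)]
  constructor
  · rintro ⟨R, f, ⟨x, hx, hs⟩, hf⟩
    rw [hlast] at hs
    exact ⟨e x, decide_eq_true ⟨x, (R, f), rfl, hs, hf⟩, (key _ le_rfl _).2 ⟨x, rfl, hx⟩⟩
  · rintro ⟨f, hf, hn⟩
    obtain ⟨x, hx1, hx2⟩ := (key _ le_rfl f).1 hn
    obtain ⟨x', y, hx', hs, hy⟩ := of_decide_eq_true hf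
    have : x' = x := e.injective (by rw [hx', hx1])
    subst this
    refine ⟨y.1, y.2, ⟨x', hx2, ?_⟩, hy⟩
    rw [hlast]
    exact hs

theorem t_UPP : S_CARD → S_SND → S_CMP → S_UPP := by
  intro hC hS hP A hfA strict M n hn
  have := M.finQ
  obtain ⟨h4, hq, hq1⟩ := size_pos' M
  have hcard : Nat.card (Set (M.Q × M.Q) × M.Q) ≤ 2 ^ (n ^ 2) := by
    rw [card_table]
    calc 2 ^ (Nat.card M.Q * Nat.card M.Q) * Nat.card M.Q
        ≤ 2 ^ (Nat.card M.Q * Nat.card M.Q) * 2 ^ (Nat.card M.Q) :=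
          Nat.mul_le_mul_left _ (Nat.lt_two_pow_self).le
      _ = 2 ^ (Nat.card M.Q * Nat.card M.Q + Nat.card M.Q) := by rw [pow_add]
      _ ≤ 2 ^ (n ^ 2) := by
          apply Nat.pow_le_pow_right (by omega)
          nlinarith
  obtain ⟨rel, p0, facc, hL⟩ := exists_nfa M strict hcard
  obtain ⟨hQ, hQc⟩ := hC A (n ^ 2)
  refine ⟨ndM (n ^ 2) rel p0 facc hQ, ?_, ?_⟩
  · ext w
    rw [Set.mem_compl_iff, hL w]
    exact ⟨hS A strict (n ^ 2) rel p0 facc hQ w, hP A strict (n ^ 2) rel p0 facc hQ w⟩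
  · have hs := size_le_all (ndM (n ^ 2) rel p0 facc hQ) (card_WS A)
    have hQ' : Nat.card (ndM (n ^ 2) rel p0 facc hQ).Q ≤ 2 ^ (10 * n ^ 2 + 20) * (Nat.card A + 1) :=
      hQc
    refine hs.trans ?_
    generalize Nat.card (ndM (n ^ 2) rel p0 facc hQ).Q = q at *
    have hA : Nat.card A + 1 ≤ 2 ^ n := by
      calc Nat.card A + 1 ≤ n := by omega
        _ ≤ 2 ^ n := (Nat.lt_two_pow_self).le
    generalize Nat.card A + 1 = a at *
    have e1 : q ≤ 2 ^ (10 * n ^ 2 + 20) * 2 ^ n := hQ'.trans (Nat.mul_le_mul_left _ hA)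
    calc 2 ^ 7 * (q ^ 2 * a ^ 2)
        ≤ 2 ^ 7 * ((2 ^ (10 * n ^ 2 + 20) * 2 ^ n) ^ 2 * (2 ^ n) ^ 2) :=
          Nat.mul_le_mul_left _ (Nat.mul_le_mul (Nat.pow_le_pow_left e1 2)
            (Nat.pow_le_pow_left hA 2))
      _ = 2 ^ (7 + ((10 * n ^ 2 + 20 + n) * 2 + n * 2)) := by
          rw [← pow_add, ← pow_mul, ← pow_mul, ← pow_add, ← pow_add]
      _ ≤ 2 ^ (50 * n ^ 2) := by
          apply Nat.pow_le_pow_right (by omega)
          nlinarith

end convert

end Pool.Agent.L0h66.CX
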