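import Pool.Agent.L0h32.CX.Stm

/-!
# Project CX: PTH, a reachable state can be tested
-/

set_option autoImplicit false
set_option linter.all false

namespace Pool.Agent.L0h66.CX

open Relation
open Pool.Agent.L0h32.CX
open Pool.Agent.H630R2.LA (LimAut Sym fz Fr Cfg Step init initTape WS lrel bitS ix nr Ann keep
  finite_WS path link bit_ann)

section runs

variable {A : Type} {h : ℕ} {rel : A → Fin (2 ^ h) → Fin (2 ^ h) → Bool} {p0 : Fin (2 ^ h)}
  {facc : Fin (2 ^ h) → Bool} {τ : ℕ → Sym (WS A)} {m : Mem A} {t s : ℕ}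

theorem stepL {n : ℕ} {q q' : St (A := A) h} {x : ℕ} (hx : x + 1 ≤ n) (hb : Bd h q')
    (ht : Tr h rel p0 facc q (τ (x + 1)) q' (keep (τ (x + 1))) false) :
    RS h rel p0 facc τ n (q, x + 1) (q', x) :=
  ⟨hx, hb, false, ht, fun hh => absurd hh (by simp), fun _ => rfl⟩

theorem stepR {n : ℕ} {q q' : St (A := A) h} {x : ℕ} (hx : x ≤ n) (hb : Bd h q')
    (ht : Tr h rel p0 facc q (τ x) q' (keep (τ x)) true) :
    RS h rel p0 facc τ n (q, x) (q', x + 1) :=
  ⟨hx, hb, true, ht, fun _ => rfl, fun hh => absurd hh (by simp)⟩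

theorem runA (hB : BdM h m) (j : ℕ) : ∀ i, i + j ≤ 2 * 2 ^ h + 1 → s + i + j ≤ t + 1 →
    ReflTransGen (RS h rel p0 facc τ (t + 1)) (.rA m (i + j), s + (i + j)) (.rA m i, s + i) := by
  induction j with
  | zero => intro i _ _; exact ReflTransGen.refl
  | succ j ih =>
    intro i h1 h2
    refine ReflTransGen.head (b := (.rA m (i + j), s + (i + j))) ?_ (ih i (by omega) (by omega))
    exact stepL (x := s + (i + j)) (by omega) ⟨hB, by omega⟩ (Tr.aL m (i + j) _)

theorem runB (hB : BdM h m) (p : Fin (2 ^ h)) (j : ℕ) : j ≤ 2 * 2 ^ h + 1 → s + j ≤ t + 1 →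
    ReflTransGen (RS h rel p0 facc τ (t + 1)) (.rB m p j, s + j) (.rB m p 0, s) := by
  induction j with
  | zero => intro _ _; exact ReflTransGen.refl
  | succ j ih =>
    intro h1 h2
    refine ReflTransGen.head (b := (.rB m p j, s + j)) ?_ (ih (by omega) (by omega))
    exact stepL (x := s + j) (by omega) ⟨hB, by omega⟩ (Tr.bL m p j _)

theorem runC (hB : BdM h m) (hE : Lt h m + 1 ≤ 2 * 2 ^ h + 1) (j : ℕ) : ∀ (i : ℕ)
    (p q : Fin (2 ^ h)), i + j ≤ Lt h m → s + i + j ≤ t → path (lrel h rel) τ (s + i + 1) j p q →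
    ReflTransGen (RS h rel p0 facc τ (t + 1)) (.rC m p (i + 1), s + i + 1)
      (.rC m q (i + j + 1), s + i + j + 1) := by
  induction j with
  | zero =>
    intro i p q _ _ hp
    have : p = q := hp
    subst this
    exact ReflTransGen.refl
  | succ j ih =>
    intro i p q h1 h2 hp
    obtain ⟨p', hp', hq⟩ := hp
    have h3 := ih (i + 1) p' q (by omega) (by omega) hq
    have e1 : i + 1 + j + 1 = i + (j + 1) + 1 := by omega
    have e2 : s + (i + 1) + j + 1 = s + i + (j + 1) + 1 := by omega
    rw [e1, e2] at h3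
    refine ReflTransGen.head (b := (.rC m p' (i + 1 + 1), s + (i + 1) + 1)) ?_ h3
    exact stepR (by omega) ⟨hB, by omega⟩ (Tr.cS m p p' i _ (by omega) hp')

theorem runR (hB : BdM h m) (hE : E h m ≤ 2 * 2 ^ h + 1) (j : ℕ) : ∀ (i : ℕ),
    i + j = E h m → s + i + j ≤ t + 1 →
    ReflTransGen (RS h rel p0 facc τ (t + 1)) (.rR m i, s + i) (.rR m (i + j), s + i + j) := by
  induction j with
  | zero => intro i _ _; exact ReflTransGen.refl
  | succ j ih =>
    intro i h1 h2
    have h3 := ih (i + 1) (by omega) (by omega)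
    have e1 : i + 1 + j = i + (j + 1) := by omega
    have e2 : s + (i + 1) + j = s + i + (j + 1) := by omega
    rw [e1, e2] at h3
    refine ReflTransGen.head (b := (.rR m (i + 1), s + (i + 1))) ?_ h3
    exact stepR (by omega) ⟨hB, by omega⟩ (Tr.rS m i _ (by omega))

end runs

theorem t_PTH : S_PTH := by
  intro A h rel p0 facc w t τ ht hA m hM hB hd hz hn
  obtain ⟨hfi, hk, hc, hcb, hz', -, hJ⟩ := hM
  have hpos : 0 < 2 ^ h := Nat.two_pow_pos h
  have hkl : t % 2 ^ h < 2 ^ h := Nat.mod_lt _ hpos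
  have hdm : 2 ^ h * (t / 2 ^ h) + t % 2 ^ h = t := Nat.div_add_mod t (2 ^ h)
  have hdm' : t / 2 ^ h * 2 ^ h + t % 2 ^ h = t := by rw [Nat.mul_comm]; exact hdm
  -- the geometry
  have hEb : E h m ≤ 2 * 2 ^ h + 1 := by
    unfold E
    split_ifs <;> omega
  have hE1 : 1 ≤ E h m := by unfold E; omega
  obtain ⟨s, hs, hL, hLE, hbase⟩ : ∃ s, s + E h m = t + 1 ∧ s + Lt h m = qpos h t m ∧
      Lt h m + 1 ≤ E h m ∧ ∀ p, nr h rel p0 w s p →
        ReflTransGen (RS h rel p0 facc τ (t + 1)) (.rA m (E h m), t + 1) (.rB m p 0, s) := by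
    by_cases hf : m.first = true
    · -- the first block
      have hlt : t < 2 ^ h := by
        rw [hfi] at hf
        exact of_decide_eq_true hf
      have hkt : m.k = t := by rw [hk, Nat.mod_eq_of_lt hlt]
      have hEt : E h m = t + 1 := by
        unfold E
        rw [if_pos hf, hkt]
        omega
      have hj : m.job ≠ 1 := by
        rcases hJ with h1 | h1 | h1
        · rw [h1.1]; omega
        · have := h1.2.2.1
          rw [hf] at this
          exact absurd this (by simp)
        · rw [h1.1]; omega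
      refine ⟨0, by omega, ?_, ?_, ?_⟩
      · unfold Lt qpos
        rw [if_neg hj, if_neg hj, hEt]
        omega
      · unfold Lt
        rw [if_neg hj]
        omega
      · intro p hp
        have hp' : p = p0 := hp
        subst hp'
        have h1 := runA (rel := rel) (p0 := p) (facc := facc) (τ := τ) (s := 0) (t := t) hB t 1
          (by omega) (by omega)
        have e1 : 1 + t = E h m := by omega
        have e2 : 0 + E h m = t + 1 := by omega
        rw [e1, e2] at h1
        refine h1.tail ?_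
        exact stepL (x := 0) (by omega) ⟨hB, by omega⟩ (Tr.aF m _ hf)
    · have hf' : m.first = false := by simpa using hf
      have hge : 2 ^ h ≤ t := by
        rw [hfi] at hf'
        have := of_decide_eq_false hf'
        omega
      have hjpos : 1 ≤ t / 2 ^ h := (Nat.one_le_div_iff hpos).2 hge
      obtain ⟨j, hj⟩ : ∃ j, t / 2 ^ h = j + 1 := ⟨t / 2 ^ h - 1, by omega⟩
      have hjm : (j + 1) * 2 ^ h = j * 2 ^ h + 2 ^ h := by ring
      have hEt : E h m = 2 ^ h + t % 2 ^ h + 1 := by
        unfold E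
        rw [if_neg hf, hk]
      rw [hj, hjm] at hdm'
      refine ⟨j * 2 ^ h, by omega, ?_, ?_, ?_⟩
      · unfold Lt qpos
        split_ifs
        · rw [hj, hjm]
        · omega
      · unfold Lt
        split_ifs <;> omega
      · intro p hp
        have hpl := p.isLt
        have hb : bitS (τ (j * 2 ^ h + 1 + p.val)) = true :=
          (bit_ann hA j p (by omega)).2 hp
        have h1 := runA (rel := rel) (p0 := p0) (facc := facc) (τ := τ) (s := j * 2 ^ h) (t := t)
          hB (E h m - (p.val + 1)) (p.val + 1) (by omega) (by omega)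
        have e1 : p.val + 1 + (E h m - (p.val + 1)) = E h m := by omega
        have e2 : j * 2 ^ h + E h m = t + 1 := by omega
        rw [e1, e2] at h1
        have h2 := runB (rel := rel) (p0 := p0) (facc := facc) (τ := τ) (s := j * 2 ^ h) (t := t)
          hB p p.val (by omega) (by omega)
        refine (h1.tail ?_).trans h2
        have h3 : Tr h rel p0 facc (.rA m (p.val + 1)) (τ (j * 2 ^ h + p.val + 1))
            (.rB m (ix h p.val) p.val) (keep (τ (j * 2 ^ h + p.val + 1))) false := by
          apply Tr.aC m p.val _ hf' hpl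
          have e3 : j * 2 ^ h + p.val + 1 = j * 2 ^ h + 1 + p.val := by omega
          rw [e3]
          exact hb
        have e4 : ix h p.val = p := by
          apply Fin.ext
          exact Nat.mod_eq_of_lt hpl
        rw [e4] at h3
        exact stepL (x := j * 2 ^ h + p.val) (by omega) ⟨hB, by omega⟩ h3
  -- the path of states
  have hq : s + Lt h m ≤ min (t + 1) w.length := by
    have : s + Lt h m ≤ t := by omega
    omega
  rw [← hL, ← link hA (Lt h m) s (ix h m.z) hq] at hn
  obtain ⟨p, hp, hpath⟩ := hn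
  have hy : BdM h (yes h rel facc m) := by
    obtain ⟨b1, b2, b3, b4, b5, b6, b7, b8, b9⟩ := hB
    exact ⟨b1, b2, b3, b4, b5, b6, hz, hd, b9⟩
  have h1 := hbase p hp
  have h0 : ReflTransGen (RS h rel p0 facc τ (t + 1)) (.hm m, t) (.rA m (E h m), t + 1) :=
    ReflTransGen.single (stepR (by omega) ⟨hB, hEb⟩ (Tr.ask m _ hz))
  have h2 : ReflTransGen (RS h rel p0 facc τ (t + 1)) (.rB m p 0, s) (.rC m p 1, s + 1) :=
    ReflTransGen.single (stepR (by omega) ⟨hB, by omega⟩ (Tr.b0 m p _))
  have h3 := runC (rel := rel) (p0 := p0) (facc := facc) (τ := τ) (s := s) (t := t) hB (by omega)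
    (Lt h m) 0 p (ix h m.z) (by omega) (by omega) hpath
  have e0 : 0 + Lt h m + 1 = Lt h m + 1 := by omega
  rw [e0] at h3
  refine ((h0.trans h1).trans h2).trans (ReflTransGen.trans h3 ?_)
  have e1 : s + 0 + Lt h m + 1 = s + Lt h m + 1 := by omega
  rw [e1]
  rcases Nat.lt_or_ge (Lt h m + 1) (E h m) with hlt | hge
  · -- back to home over the letters that are not read
    have h4 : ReflTransGen (RS h rel p0 facc τ (t + 1)) (.rC m (ix h m.z) (Lt h m + 1),
        s + Lt h m + 1) (.rR m (Lt h m + 2), s + Lt h m + 1 + 1) :=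
      ReflTransGen.single (stepR (by omega) ⟨hB, by omega⟩ (Tr.cR m _ _ _ rfl rfl hlt))
    have h5 := runR (rel := rel) (p0 := p0) (facc := facc) (τ := τ) (s := s) (t := t) hB hEb
      (E h m - (Lt h m + 2)) (Lt h m + 2) (by omega) (by omega)
    have e2 : Lt h m + 2 + (E h m - (Lt h m + 2)) = E h m := by omega
    have e3 : s + (Lt h m + 2) + (E h m - (Lt h m + 2)) = t + 1 := by omega
    have e4 : s + (Lt h m + 2) = s + Lt h m + 1 + 1 := by omega
    rw [e2, e3, e4] at h5
    refine (h4.trans h5).tail ?_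
    exact stepL (by omega) hy (Tr.rE m _ _ rfl)
  · have e2 : s + Lt h m = t := by omega
    rw [e2]
    exact ReflTransGen.single (stepL (by omega) hy (Tr.cD m _ _ _ rfl rfl (by omega)))

end Pool.Agent.L0h66.CX
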